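import Pool.Agent.H852R2.EX.Par
import Pool.Agent.H852R2.EX.S.EXPOB

/-! Random `b` is good -/

namespace RC852
open RC14 Finset Filter

namespace BPART

theorem card_pairs {X Y : Type*} [Fintype X] [Fintype Y] (R : X → Y → Prop) :
    Nat.card {p : X × Y // R p.1 p.2} = ∑ x, Nat.card {y // R x y} := by
  classical
  simp_rw [Nat.card_eq_fintype_card, Fintype.card_subtype, Finset.card_filter]
  rw [Fintype.sum_prod_type]

/-- Markov's inequality -/
theorem markov {X : Type*} [Fintype X] (N : X → ℝ) (hN : ∀ x, 0 ≤ N x) (t P : ℝ) (ht : 0 < t)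
    (hP : ∑ x, N x ≤ P * t) : (Nat.card {x // ¬ N x ≤ t} : ℝ) ≤ P := by
  classical
  rw [Nat.card_eq_fintype_card, Fintype.card_subtype]
  have h1 : ((univ.filter fun x => ¬ N x ≤ t).card : ℝ) * t ≤ ∑ x, N x := by
    calc ((univ.filter fun x => ¬ N x ≤ t).card : ℝ) * t =
        ∑ x ∈ univ.filter (fun x => ¬ N x ≤ t), t := by
          rw [Finset.sum_const, nsmul_eq_mul]
      _ ≤ ∑ x ∈ univ.filter (fun x => ¬ N x ≤ t), N x := by
          refine Finset.sum_le_sum fun x hx => ?_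
          exact (not_le.mp (Finset.mem_filter.mp hx).2).le
      _ ≤ ∑ x, N x := Finset.sum_le_sum_of_subset_of_nonneg (Finset.filter_subset _ _)
          fun x _ _ => hN x
  exact le_of_mul_le_mul_right (h1.trans hP) ht

theorem card_eq {X : Type*} [Fintype X] (P : X → Prop) [DecidablePred P] :
    Nat.card {x // P x} = (univ.filter P).card := by
  rw [Nat.card_eq_fintype_card, Fintype.card_subtype]

/-- union bound -/
theorem union_bound' {X : Type*} [Fintype X] (Q : ℕ → X → Prop) (m : ℕ) (c : ℝ)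
    (h : ∀ j, 1 ≤ j → j ≤ m → (Nat.card {x // ¬ Q j x} : ℝ) ≤ c) (P : X → Prop)
    (hP : ∀ x, P x → ∃ j, 1 ≤ j ∧ j ≤ m ∧ ¬ Q j x) :
    (Nat.card {x // P x} : ℝ) ≤ m * c := by
  classical
  have h1 : univ.filter P ⊆
      (Finset.Icc 1 m).biUnion (fun j => univ.filter (fun x => ¬ Q j x)) := by
    intro x hx
    obtain ⟨j, hj1, hj2, hj3⟩ := hP x (Finset.mem_filter.mp hx).2
    exact Finset.mem_biUnion.mpr ⟨j, Finset.mem_Icc.mpr ⟨hj1, hj2⟩,
      Finset.mem_filter.mpr ⟨Finset.mem_univ _, hj3⟩⟩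
  have h2 : ((univ.filter P).card : ℝ) ≤
      ∑ j ∈ Finset.Icc 1 m, ((univ.filter (fun x => ¬ Q j x)).card : ℝ) := by
    exact_mod_cast (Finset.card_le_card h1).trans Finset.card_biUnion_le
  rw [card_eq P]
  refine h2.trans ?_
  calc ∑ j ∈ Finset.Icc 1 m, ((univ.filter (fun x => ¬ Q j x)).card : ℝ) ≤
      ∑ _j ∈ Finset.Icc 1 m, c := by
        refine Finset.sum_le_sum fun j hj => ?_
        have h3 := h j (Finset.mem_Icc.mp hj).1 (Finset.mem_Icc.mp hj).2
        rw [card_eq (fun x => ¬ Q j x)] at h3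
        exact h3
    _ = m * c := by
      rw [Finset.sum_const, Nat.card_Icc, nsmul_eq_mul, Nat.add_sub_cancel]

theorem union_bound {X : Type*} [Fintype X] (Q : ℕ → X → Prop) (m : ℕ) (c : ℝ)
    (h : ∀ j, 1 ≤ j → j ≤ m → (Nat.card {x // ¬ Q j x} : ℝ) ≤ c) :
    (Nat.card {x // ¬ ∀ j, 1 ≤ j → j ≤ m → Q j x} : ℝ) ≤ m * c := by
  refine union_bound' Q m c h _ fun x hx => ?_
  push Not at hx
  exact hx

/-- the numerical estimate: the two terms of `EXPOB` -/
theorem numeric (n j K' : ℕ) (c : ℝ) (hc : 0 < c) (hj : 1 ≤ j) (hj2 : (128 * j : ℝ) ^ 2 ≤ n)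
    (hK : c * n ≤ K') (h3 : 64 ≤ c ^ 3 * n) (h4 : 1 ≤ c ^ 4 * n) (hn : (2 : ℝ) ^ 64 ≤ n) :
    ((64 * j : ℕ) : ℝ) * n / (K' : ℝ) ^ (4 * j + 3) +
      n * (2 ^ (64 * j) * (2 * ((64 * j : ℕ) : ℝ) / n : ℝ) ^ (64 * j / 4 + 1)) ≤
      2 * (1 / (n : ℝ)) ^ (3 * j) := by
  have hn0 : (0 : ℝ) < n := lt_of_lt_of_le (by positivity) hn
  have hn1 : (1 : ℝ) ≤ n := le_trans (by norm_num) hn
  have hj1 : (1 : ℝ) ≤ j := by exact_mod_cast hj
  have hjn : (j : ℝ) ≤ n := by
    nlinarith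
  have hK0 : (0 : ℝ) < K' := lt_of_lt_of_le (by positivity) hK
  have hcn : 0 ≤ c * n := by positivity
  -- first term
  have hK3 : (64 : ℝ) * n * n ≤ (K' : ℝ) ^ 3 := by
    calc (64 : ℝ) * n * n ≤ (c ^ 3 * n) * n * n := by gcongr
      _ = (c * n) ^ 3 := by ring
      _ ≤ (K' : ℝ) ^ 3 := pow_le_pow_left₀ hcn hK 3
  have hK4 : (n : ℝ) ^ 3 ≤ (K' : ℝ) ^ 4 := by
    calc (n : ℝ) ^ 3 = 1 * n ^ 3 := (one_mul _).symm
      _ ≤ (c ^ 4 * n) * n ^ 3 := by gcongr
      _ = (c * n) ^ 4 := by ring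
      _ ≤ (K' : ℝ) ^ 4 := pow_le_pow_left₀ hcn hK 4
  have hA : ((64 * j : ℕ) : ℝ) * n / (K' : ℝ) ^ (4 * j + 3) ≤ (1 / (n : ℝ)) ^ (3 * j) := by
    rw [one_div, inv_pow, div_le_iff₀ (by positivity), inv_mul_eq_div, le_div_iff₀ (by positivity)]
    push_cast
    calc (64 : ℝ) * j * n * n ^ (3 * j) ≤ 64 * n * n * (n ^ 3) ^ j := by
          rw [← pow_mul]
          gcongr
      _ ≤ (K' : ℝ) ^ 3 * ((K' : ℝ) ^ 4) ^ j := by gcongr
      _ = (K' : ℝ) ^ (4 * j + 3) := by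
          rw [← pow_mul, pow_add]
          ring
  -- second term
  have hx0 : 0 ≤ (2 * ((64 * j : ℕ) : ℝ) / n : ℝ) := by positivity
  have hxx : (2 * ((64 * j : ℕ) : ℝ) / n : ℝ) ^ 2 ≤ 1 / n := by
    rw [div_pow, div_le_div_iff₀ (by positivity) hn0]
    push_cast
    have e : (2 * (64 * (j : ℝ))) ^ 2 = (128 * j) ^ 2 := by ring
    rw [e, one_mul, pow_two (n : ℝ)]
    exact mul_le_mul_of_nonneg_right hj2 hn0.le
  have hx1 : (2 * ((64 * j : ℕ) : ℝ) / n : ℝ) ≤ 1 := by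
    have h5 : (2 * ((64 * j : ℕ) : ℝ) / n : ℝ) ^ 2 ≤ 1 :=
      hxx.trans ((div_le_one hn0).mpr hn1)
    nlinarith
  have hdiv : 64 * j / 4 + 1 = 2 * (8 * j) + 1 := by omega
  have hB : n * (2 ^ (64 * j) * (2 * ((64 * j : ℕ) : ℝ) / n : ℝ) ^ (64 * j / 4 + 1)) ≤
      (1 / (n : ℝ)) ^ (3 * j) := by
    rw [hdiv, pow_succ, pow_mul _ 2 (8 * j)]
    have h6 : ((2 * ((64 * j : ℕ) : ℝ) / n : ℝ) ^ 2) ^ (8 * j) *
        (2 * ((64 * j : ℕ) : ℝ) / n : ℝ) ≤ (1 / (n : ℝ)) ^ (8 * j) := by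
      calc _ ≤ (1 / (n : ℝ)) ^ (8 * j) * 1 := by gcongr
        _ = _ := mul_one _
    have h7 : (2 : ℝ) ^ (64 * j) ≤ (n : ℝ) ^ j := by
      rw [pow_mul]
      exact pow_le_pow_left₀ (by positivity) hn j
    have h8 : (n : ℝ) ≤ n ^ j := le_self_pow₀ hn1 (by omega)
    have h9 : (n : ℝ) ^ j * (n ^ j * (1 / (n : ℝ)) ^ (8 * j)) ≤ (1 / (n : ℝ)) ^ (3 * j) := by
      rw [one_div, inv_pow, inv_pow, ← mul_assoc, ← div_eq_mul_inv, div_le_iff₀ (by positivity),
        inv_mul_eq_div, le_div_iff₀ (by positivity), ← pow_add, ← pow_add]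
      apply pow_le_pow_right₀ hn1
      omega
    refine le_trans ?_ h9
    gcongr
  linarith

end BPART

/-- random `b` is good -/
theorem BPART : ∀ᶠ n : ℕ in atTop, ∀ q : ℕ, 1 ≤ q → ∀ (K : Type) [Fintype K] [Nonempty K]
    (g : K → Equiv.Perm (Fin n)), Mix g →
    (Nat.card {b : Fin q → Alt n // ¬ GoodB g (cb b)} : ℝ) ≤
      1 / (n : ℝ) * (Fintype.card (Alt n) : ℝ) ^ q := by
  classical
  have hcpos : 0 < Real.exp (-80) / 16 := by positivity
  have hT : Tendsto (fun n : ℕ => (n : ℝ)) atTop atTop := tendsto_natCast_atTop_atTop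
  filter_upwards [hT.eventually_ge_atTop ((2 : ℝ) ^ 64),
    hT.eventually_ge_atTop (64 / (Real.exp (-80) / 16) ^ 3),
    hT.eventually_ge_atTop (1 / (Real.exp (-80) / 16) ^ 4),
    hT.eventually_ge_atTop (16 / Real.exp (-80))] with n hn64 hn3 hn4 hn8
  intro q hq K _ _ g hg
  have hn0 : (0 : ℝ) < n := lt_of_lt_of_le (by positivity) hn64
  have hn1 : (1 : ℝ) ≤ n := le_trans (by norm_num) hn64
  have h3 : 64 ≤ (Real.exp (-80) / 16) ^ 3 * n := by
    rw [div_le_iff₀ (by positivity)] at hn3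
    linarith
  have h4 : 1 ≤ (Real.exp (-80) / 16) ^ 4 * n := by
    rw [div_le_iff₀ (by positivity)] at hn4
    linarith
  have hexp8 : 16 ≤ Real.exp (-80) * n := by
    rw [div_le_iff₀ (by positivity)] at hn8
    linarith
  have hnN : 1 ≤ n := by exact_mod_cast hn1
  -- properties of F0 and K'
  have hF0 : Real.exp (-80) * n ≤ (F0 n : ℝ) := Nat.le_ceil _
  set K' := F0 n / 8 with hK'
  have hK'1 : (F0 n : ℝ) < 8 * (K' + 1) := by
    have := Nat.lt_div_mul_add (a := F0 n) (b := 8) (by norm_num)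
    have h5 : F0 n < 8 * (K' + 1) := by omega
    exact_mod_cast h5
  have hK'2 : Real.exp (-80) / 16 * n ≤ K' := by
    have : Real.exp (-80) * n < 8 * (K' + 1) := hF0.trans_lt hK'1
    linarith
  have hK'pos : 1 ≤ K' := by
    have : (0 : ℝ) < K' := lt_of_lt_of_le (by positivity) hK'2
    exact_mod_cast this
  -- properties of m0
  have hsq : Real.sqrt n ^ 2 = n := Real.sq_sqrt hn0.le
  have hsq0 : 0 ≤ Real.sqrt n := Real.sqrt_nonneg _
  have hsq1 : 1 ≤ Real.sqrt n := by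
    rw [← Real.sqrt_one]
    exact Real.sqrt_le_sqrt hn1
  have hexp82 : (2 : ℝ) ^ 82 ≤ Real.exp 82 := by
    have h5 : (2 : ℝ) ≤ Real.exp 1 := by
      have := Real.add_one_le_exp (1 : ℝ)
      linarith
    calc (2 : ℝ) ^ 82 ≤ (Real.exp 1) ^ 82 := pow_le_pow_left₀ (by norm_num) h5 82
      _ = Real.exp 82 := by rw [← Real.exp_nat_mul]; norm_num
  have hexp81 : (2 : ℝ) ^ 81 ≤ Real.exp 81 := by
    have h5 : (2 : ℝ) ≤ Real.exp 1 := by
      have := Real.add_one_le_exp (1 : ℝ)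
      linarith
    calc (2 : ℝ) ^ 81 ≤ (Real.exp 1) ^ 81 := pow_le_pow_left₀ (by norm_num) h5 81
      _ = Real.exp 81 := by rw [← Real.exp_nat_mul]; norm_num
  have hm0 : ∀ j : ℕ, j ≤ m0 n → (j : ℝ) ≤ Real.exp (-81) * Real.sqrt n := by
    intro j hj
    have h5 : (m0 n : ℝ) ≤ Real.exp (-81) * Real.sqrt n := Nat.floor_le (by positivity)
    have h6 : (j : ℝ) ≤ m0 n := by exact_mod_cast hj
    exact h6.trans h5
  have hsmall : 128 * Real.exp (-81) ≤ 1 := by
    rw [Real.exp_neg, ← div_eq_mul_inv, div_le_one (by positivity)]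
    exact le_trans (by norm_num) hexp81
  have hA0 : (0 : ℝ) < (Fintype.card (Alt n) : ℝ) := by
    have : 0 < Fintype.card (Alt n) := Fintype.card_pos
    exact_mod_cast this
  have : NeZero q := ⟨by omega⟩
  have hC0 : (0 : ℝ) < (Fintype.card (K × (Fin q × Bool)) : ℝ) := by
    have : 0 < Fintype.card (K × (Fin q × Bool)) := Fintype.card_pos
    exact_mod_cast this
  -- one level
  have hlevel : ∀ j, 1 ≤ j → j ≤ m0 n →
      (Nat.card {b : Fin q → Alt n // ¬ ((Nat.card {w : Fin (64 * j) → K × (Fin q × Bool) //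
        F0 n ≤ nfix (bwd g (cb b) w)} : ℝ) ≤
      (1 / (n : ℝ)) ^ j * (Fintype.card (K × (Fin q × Bool)) : ℝ) ^ (64 * j))} : ℝ) ≤
      2 * (1 / (n : ℝ)) ^ 2 * (Fintype.card (Alt n) : ℝ) ^ q := by
    intro j hj1 hj2
    have hjs := hm0 j hj2
    have hj1' : (1 : ℝ) ≤ j := by exact_mod_cast hj1
    have hj128 : (128 * j : ℝ) ≤ Real.sqrt n := by
      calc (128 * j : ℝ) ≤ 128 * (Real.exp (-81) * Real.sqrt n) := by linarith
        _ = (128 * Real.exp (-81)) * Real.sqrt n := by ring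
        _ ≤ 1 * Real.sqrt n := mul_le_mul_of_nonneg_right hsmall hsq0
        _ = Real.sqrt n := one_mul _
    have hj128' : (128 * j : ℝ) ^ 2 ≤ n := by
      rw [← hsq]
      exact pow_le_pow_left₀ (by positivity) hj128 2
    have hJn : 2 * (64 * j) ≤ n := by
      have h5 : (128 * j : ℝ) ≤ n := by nlinarith
      have h6 : ((2 * (64 * j) : ℕ) : ℝ) ≤ n := by
        push_cast
        linarith
      exact_mod_cast h6
    have hj2n : (j : ℝ) ^ 2 ≤ Real.exp (-162) * n := by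
      calc (j : ℝ) ^ 2 ≤ (Real.exp (-81) * Real.sqrt n) ^ 2 :=
            pow_le_pow_left₀ (by positivity) hjs 2
        _ = (Real.exp (-81) * Real.exp (-81)) * n := by
            rw [mul_pow, hsq]; ring
        _ = Real.exp (-162) * n := by
            rw [← Real.exp_add]; norm_num
    have hF : 4 * ((4 * j + 3) * (3 * (64 * j) + 1) + K') ≤ F0 n := by
      have h5 : (8 * ((4 * j + 3) * (3 * (64 * j) + 1) : ℕ) : ℝ) ≤ F0 n := by
        refine le_trans ?_ hF0
        push_cast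
        calc (8 : ℝ) * ((4 * j + 3) * (3 * (64 * j) + 1)) ≤
            8 * ((7 * j) * (193 * j)) := by
              gcongr
              · linarith
              · linarith
          _ = 10808 * (j : ℝ) ^ 2 := by ring
          _ ≤ 10808 * (Real.exp (-162) * n) := by linarith
          _ = (10808 * Real.exp (-82)) * (Real.exp (-80) * n) := by
              have : Real.exp (-162) = Real.exp (-82) * Real.exp (-80) := by
                rw [← Real.exp_add]; norm_num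
              rw [this]; ring
          _ ≤ 1 * (Real.exp (-80) * n) := by
              apply mul_le_mul_of_nonneg_right _ (by positivity)
              rw [Real.exp_neg, ← div_eq_mul_inv, div_le_one (by positivity)]
              exact le_trans (by norm_num) hexp82
          _ = Real.exp (-80) * n := one_mul _
      have h6 : 8 * ((4 * j + 3) * (3 * (64 * j) + 1)) ≤ F0 n := by exact_mod_cast h5
      omega
    have hE := EXPOB n q (64 * j) (F0 n) (4 * j + 3) K' hnN hq (by omega) hJn hK'pos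
      ⟨2 * j + 1, by ring⟩ g hg hF
    have hnum := BPART.numeric n j K' (Real.exp (-80) / 16) hcpos hj1 hj128' hK'2 h3 h4 hn64
    have hpairs := BPART.card_pairs (X := Fin q → Alt n)
      (Y := Fin (64 * j) → K × (Fin q × Bool))
      (fun b w => F0 n ≤ nfix (bwd g (cb b) w))
    have hE' : (Nat.card {p : (Fin q → Alt n) × (Fin (64 * j) → K × (Fin q × Bool)) //
        F0 n ≤ nfix (bwd g (cb p.1) p.2)} : ℝ) ≤ 2 * (1 / (n : ℝ)) ^ (3 * j) *
        ((Fintype.card (Alt n) : ℝ) ^ q *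
          (Fintype.card (K × (Fin q × Bool)) : ℝ) ^ (64 * j)) :=
      le_trans hE (mul_le_mul_of_nonneg_right hnum (by positivity))
    rw [hpairs] at hE'
    push_cast at hE'
    have hnj : (0 : ℝ) < (1 / (n : ℝ)) ^ j := by positivity
    refine le_trans (BPART.markov
      (fun b : Fin q → Alt n => (Nat.card {w : Fin (64 * j) → K × (Fin q × Bool) //
        F0 n ≤ nfix (bwd g (cb b) w)} : ℝ)) (fun b => Nat.cast_nonneg _)
      ((1 / (n : ℝ)) ^ j * (Fintype.card (K × (Fin q × Bool)) : ℝ) ^ (64 * j))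
      (2 * (1 / (n : ℝ)) ^ (2 * j) * (Fintype.card (Alt n) : ℝ) ^ q) (by positivity) ?_) ?_
    · refine le_trans hE' (le_of_eq ?_)
      have e : (1 / (n : ℝ)) ^ (3 * j) = (1 / (n : ℝ)) ^ (2 * j) * (1 / (n : ℝ)) ^ j := by
        rw [← pow_add]
        congr 1
        ring
      rw [e]
      ring
    · apply mul_le_mul_of_nonneg_right _ (by positivity)
      apply mul_le_mul_of_nonneg_left _ (by norm_num)
      apply pow_le_pow_of_le_one (by positivity)
      · rw [one_div]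
        exact inv_le_one_of_one_le₀ hn1
      · omega
  -- union
  have hU := BPART.union_bound (X := Fin q → Alt n)
    (fun j b => (Nat.card {w : Fin (64 * j) → K × (Fin q × Bool) //
        F0 n ≤ nfix (bwd g (cb b) w)} : ℝ) ≤
      (1 / (n : ℝ)) ^ j * (Fintype.card (K × (Fin q × Bool)) : ℝ) ^ (64 * j)) (m0 n) _ hlevel
  refine le_trans hU ?_
  have hm : (m0 n : ℝ) ≤ n / 2 := by
    have h5 := hm0 (m0 n) le_rfl
    have h6 : Real.exp (-81) ≤ 1 / 2 := by linarith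
    have h7 : Real.sqrt n ≤ n := by nlinarith
    calc (m0 n : ℝ) ≤ Real.exp (-81) * Real.sqrt n := h5
      _ ≤ 1 / 2 * n := by gcongr
      _ = n / 2 := by ring
  calc (m0 n : ℝ) * (2 * (1 / (n : ℝ)) ^ 2 * (Fintype.card (Alt n) : ℝ) ^ q) ≤
      n / 2 * (2 * (1 / (n : ℝ)) ^ 2 * (Fintype.card (Alt n) : ℝ) ^ q) := by gcongr
    _ = 1 / (n : ℝ) * (Fintype.card (Alt n) : ℝ) ^ q := by
      field_simp

end RC852
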